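import Mathlib

namespace Pool.Agent.Results.MP_26c808_an.Cubic

open Matrix
open scoped MatrixOrder ComplexOrder

/-- `x` majorizes `y` (both listed in decreasing order) -/
def Majorizes {m : ℕ} (x y : Fin m → ℝ) : Prop :=
  (∀ k : ℕ, 1 ≤ k → k < m →
    ∑ i ∈ Finset.univ.filter (fun i : Fin m => (i : ℕ) < k), y i ≤
      ∑ i ∈ Finset.univ.filter (fun i : Fin m => (i : ℕ) < k), x i) ∧
  ∑ i, x i = ∑ i, y i

/-- the power `p` of the absolute value of `X` -/
noncomputable def absPow {n : ℕ} (X : Matrix (Fin n) (Fin n) ℂ) (p : ℝ) :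
    Matrix (Fin n) (Fin n) ℂ :=
  (CFC.sqrt (Xᴴ * X)) ^ p

lemma psd_of_ldl (M : Matrix (Fin 3) (Fin 3) ℂ) (a b c d0 d1 d2 : ℝ) (h0 : 0 ≤ d0) (h1 : 0 ≤ d1)
    (h2 : 0 ≤ d2)
    (h : M = !![(d0 : ℂ), a * d0, b * d0; a * d0, a * a * d0 + d1, a * b * d0 + c * d1;
      b * d0, a * b * d0 + c * d1, b * b * d0 + c * c * d1 + d2]) : M.PosSemidef := by
  have e : M = !![(1 : ℂ), 0, 0; a, 1, 0; b, c, 1] * diagonal ![(d0 : ℂ), d1, d2] *
      (!![(1 : ℂ), 0, 0; a, 1, 0; b, c, 1])ᴴ := by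
    rw [h]
    ext i j
    rw [Matrix.mul_apply]
    simp only [Matrix.mul_diagonal, conjTranspose_apply, Fin.sum_univ_three]
    fin_cases i <;> fin_cases j <;> simp <;> ring
  rw [e]
  refine PosSemidef.mul_mul_conjTranspose_same ?_ _
  refine PosSemidef.diagonal fun i => ?_
  fin_cases i <;> simpa

lemma absPow_three (X P : Matrix (Fin 3) (Fin 3) ℂ) (hP : P.PosSemidef) (h : P * P = Xᴴ * X) :
    absPow X 3 = P * P * P := by
  have e : CFC.sqrt (Xᴴ * X) = P := CFC.sqrt_unique h hP.nonneg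
  have e3 : (3 : ℝ) = ((3 : ℕ) : ℝ) := by norm_num
  rw [absPow, e, e3, CFC.rpow_natCast P 3 hP.nonneg, pow_three']

lemma le_eig {n : ℕ} {X : Matrix (Fin n) (Fin n) ℂ} (hX : X.IsHermitian) (c : ℝ) :
    (X - (c : ℂ) • (1 : Matrix (Fin n) (Fin n) ℂ)).PosSemidef ↔ ∀ i, c ≤ hX.eigenvalues₀ i := by
  have e : algebraMap ℝ (Matrix (Fin n) (Fin n) ℂ) c = (c : ℂ) • (1 : Matrix (Fin n) (Fin n) ℂ) := by
    rw [Algebra.algebraMap_eq_smul_one]
    ext i j
    simp
  rw [← e, ← Matrix.le_iff, algebraMap_le_iff_le_spectrum hX.isSelfAdjoint,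
    hX.spectrum_real_eq_range_eigenvalues]
  constructor
  · intro h i
    refine h _ ⟨(Fintype.equivOfCardEq (Fintype.card_fin _)) i, ?_⟩
    simp [IsHermitian.eigenvalues]
  · rintro h _ ⟨i, rfl⟩
    exact h _

lemma last_le {m : ℕ} (hm : m = 3) {x y : Fin m → ℝ} (h : Majorizes x y) (hy : Antitone y) (c : ℝ)
    (hx : ∀ i, c ≤ x i) : ∀ i, c ≤ y i := by
  subst hm
  obtain ⟨h1, h2⟩ := h
  have h3 := h1 2 (by norm_num) (by norm_num)
  simp only [Finset.sum_filter, Fin.sum_univ_three] at h2 h3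
  norm_num at h3
  have : c ≤ y 2 := by linarith [hx 2]
  intro i
  exact this.trans (hy (Fin.le_last i))

noncomputable def mA : Matrix (Fin 3) (Fin 3) ℂ := !![488, 72, -24; 72, 14, 7/2; -24, 7/2, 19]
noncomputable def mB : Matrix (Fin 3) (Fin 3) ℂ :=
  !![11981/28457, -62532/28457, 25836/28457; -62532/28457, 366464/28457, -146222/28457;
    25836/28457, -146222/28457, 60796/28457]
noncomputable def mP : Matrix (Fin 3) (Fin 3) ℂ := !![40, 0, 0; 0, 5, 0; 0, 0, 1]
noncomputable def mQ : Matrix (Fin 3) (Fin 3) ℂ :=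
  !![2176/121, -1422/121, 1686/121; -1422/121, 1849/121, -1332/121; 1686/121, -1332/121, 1541/121]
noncomputable def mX : Matrix (Fin 3) (Fin 3) ℂ :=
  !![307904, 36060, -11916; 36060, 22069/4, -3225/2; -11916, -3225/2, 3801/4]
noncomputable def mY : Matrix (Fin 3) (Fin 3) ℂ :=
  !![32652920/121, 1681998/121, 1247610/121; 1681998/121, 11866365/484, -4993689/242;
    1247610/121, -4993689/242, 9677761/484]

lemma psdA : mA.PosSemidef := by
  refine psd_of_ldl _ (9/61) (-3/61) (859/412) (488) (206/61) (2587/824)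
    (by norm_num) (by norm_num) (by norm_num) ?_
  ext i j
  fin_cases i <;> fin_cases j <;> simp [mA] <;> norm_num

lemma psdB : mB.PosSemidef := by
  refine psd_of_ldl _ (-62532/11981) (25836/11981) (-479/1688) (11981/28457) (16880/11981) (55/844)
    (by norm_num) (by norm_num) (by norm_num) ?_
  ext i j
  fin_cases i <;> fin_cases j <;> simp [mB] <;> norm_num

lemma psdP : mP.PosSemidef := by
  refine psd_of_ldl _ (0) (0) (0) (40) (5) (1)
    (by norm_num) (by norm_num) (by norm_num) ?_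
  ext i j
  fin_cases i <;> fin_cases j <;> simp [mP]

lemma psdQ : mQ.PosSemidef := by
  refine psd_of_ldl _ (-711/1088) (843/1088) (-207/827) (2176/121) (4135/544) (1210/827)
    (by norm_num) (by norm_num) (by norm_num) ?_
  ext i j
  fin_cases i <;> fin_cases j <;> simp [mQ] <;> norm_num

lemma psdX : (mX - ((432 : ℝ) : ℂ) • (1 : Matrix (Fin 3) (Fin 3) ℂ)).PosSemidef := by
  refine psd_of_ldl _ (9015/76868) (-2979/76868) (-16526910/65812097) (307472) (65812097/76868) (646563057/263248388)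
    (by norm_num) (by norm_num) (by norm_num) ?_
  ext i j
  fin_cases i <;> fin_cases j <;> simp [mX] <;> norm_num

lemma not_psdY : ¬ (mY - ((432 : ℝ) : ℂ) • (1 : Matrix (Fin 3) (Fin 3) ℂ)).PosSemidef := by
  intro h
  have h1 := h.dotProduct_mulVec_nonneg ![-6, 67, 74]
  have h2 : star ![(-6 : ℂ), 67, 74] ⬝ᵥ
      (mY - ((432 : ℝ) : ℂ) • (1 : Matrix (Fin 3) (Fin 3) ℂ)) *ᵥ ![-6, 67, 74] =
      ((-9863 / 4 : ℝ) : ℂ) := by
    simp [mY, dotProduct, Matrix.mulVec, Fin.sum_univ_three, Matrix.one_apply, map_ofNat]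
    norm_num
  rw [h2] at h1
  have h3 : (0 : ℝ) ≤ -9863 / 4 := by exact_mod_cast h1
  norm_num at h3

lemma eqP : mP * mP = (mB * mA)ᴴ * (mB * mA) := by
  rw [conjTranspose_mul, psdA.isHermitian.eq, psdB.isHermitian.eq]
  ext i j
  fin_cases i <;> fin_cases j <;>
    simp [mA, mB, mP, Matrix.mul_apply, Fin.sum_univ_three] <;> norm_num

lemma eqQ : mQ * mQ = (mA * mB)ᴴ * (mA * mB) := by
  rw [conjTranspose_mul, psdA.isHermitian.eq, psdB.isHermitian.eq]
  ext i j
  fin_cases i <;> fin_cases j <;>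
    simp [mA, mB, mQ, Matrix.mul_apply, Fin.sum_univ_three] <;> norm_num

lemma eqX : mA ^ 2 + absPow (mB * mA) 3 = mX := by
  rw [absPow_three _ _ psdP eqP, sq]
  ext i j
  fin_cases i <;> fin_cases j <;>
    simp [mA, mX, mP] <;> norm_num

lemma eqY : mA ^ 2 + absPow (mA * mB) 3 = mY := by
  rw [absPow_three _ _ psdQ eqQ, sq]
  ext i j
  fin_cases i <;> fin_cases j <;>
    simp [mA, mY, mQ] <;> norm_num

lemma hermX : mX.IsHermitian := by
  ext i j
  fin_cases i <;> fin_cases j <;> simp [mX]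

lemma hermY : mY.IsHermitian := by
  ext i j
  fin_cases i <;> fin_cases j <;> simp [mY]

theorem result :
    ∃ (A B : Matrix (Fin 3) (Fin 3) ℂ), A.PosSemidef ∧ B.PosSemidef ∧
      ∃ (hX : (A ^ 2 + absPow (B * A) 3).IsHermitian)
        (hY : (A ^ 2 + absPow (A * B) 3).IsHermitian),
        ¬ Majorizes hX.eigenvalues₀ hY.eigenvalues₀ := by
  refine ⟨mA, mB, psdA, psdB, eqX ▸ hermX, eqY ▸ hermY, fun h => not_psdY ?_⟩
  have h1 := last_le (by simp) h (IsHermitian.eigenvalues₀_antitone _) 432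
    ((le_eig _ _).1 (eqX ▸ psdX))
  exact eqY ▸ (le_eig _ _).2 h1

end Pool.Agent.Results.MP_26c808_an.Cubic
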